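import Pool.Agent.VMX.StmtsA

/-!
# Squad VMX, row MIX (helper45): mixing of the moving vertex
-/

set_option autoImplicit false

open Matrix Filter Topology

namespace Pool.Agent.VMX.H45

open Pool.Agent.PFS Pool.Agent.PFJ Pool.Agent.NBT Pool.Agent.VMX

section Aux

variable {n : ℕ} {C : Set (V n)}

/-- vectors between `-δ_k q_k` and `δ_k q_k` with `δ_k → 0` tend to zero -/
theorem small (hC : PCone C) {d q : ℕ → V n} {δ : ℕ → ℝ} {q0 : V n}
    (hq : Tendsto q atTop (𝓝 q0)) (hδ : Tendsto δ atTop (𝓝 0))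
    (h1 : ∀ k, δ k • q k - d k ∈ closure C) (h2 : ∀ k, δ k • q k + d k ∈ closure C) :
    Tendsto d atTop (𝓝 0) := by
  obtain ⟨B, hB, hn⟩ := hC.normal
  have hdq : Tendsto (fun k => δ k • q k) atTop (𝓝 0) := by
    have := hδ.smul hq
    rwa [zero_smul] at this
  have h3 : Tendsto (fun k => δ k • q k + d k) atTop (𝓝 0) := by
    rw [tendsto_zero_iff_norm_tendsto_zero]
    have h4 : Tendsto (fun k => B * ‖(2 : ℝ) • (δ k • q k)‖) atTop (𝓝 0) := by
      have := ((hdq.const_smul (2 : ℝ)).norm).const_mul B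
      rwa [smul_zero, norm_zero, mul_zero] at this
    refine squeeze_zero (fun k => norm_nonneg _) (fun k => hn _ _ (h2 k) ?_) h4
    have h5 : (2 : ℝ) • (δ k • q k) - (δ k • q k + d k) = δ k • q k - d k := by
      rw [two_smul]; abel
    rw [h5]; exact h1 k
  have h5 := h3.sub hdq
  rw [sub_zero] at h5
  refine h5.congr fun k => ?_
  abel

/-- a sequence in the cone below a convergent sequence has a convergent subsequence -/
theorem subseq (hC : PCone C) {x q : ℕ → V n} {q0 : V n}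
    (hq : Tendsto q atTop (𝓝 q0)) (h1 : ∀ k, x k ∈ closure C) (h2 : ∀ k, q k - x k ∈ closure C) :
    ∃ (a : V n) (φ : ℕ → ℕ), StrictMono φ ∧ Tendsto (fun k => x (φ k)) atTop (𝓝 a) := by
  obtain ⟨B, hB, hn⟩ := hC.normal
  obtain ⟨R, hR⟩ := (Metric.isBounded_range_of_tendsto q hq).exists_norm_le
  have h3 : ∀ k, x k ∈ Metric.closedBall (0 : V n) (B * R) := by
    intro k
    rw [mem_closedBall_zero_iff]
    exact (hn _ _ (h1 k) (h2 k)).trans (mul_le_mul_of_nonneg_left (hR _ ⟨k, rfl⟩) hB.le)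
  obtain ⟨a, -, φ, hφ, ha⟩ := (isCompact_closedBall (0 : V n) (B * R)).tendsto_subseq h3
  exact ⟨a, φ, hφ, ha⟩

/-- `± exp t (v - g) ≤ (1/2) (R + exp t g)` -/
def InA (C : Set (V n)) (R v g : V n) (t : ℝ) : Prop :=
  (1 / 2 : ℝ) • (R + Real.exp t • g) - Real.exp t • (v - g) ∈ closure C ∧
    (1 / 2 : ℝ) • (R + Real.exp t • g) + Real.exp t • (v - g) ∈ closure C

theorem InA.mono (hC : PCone C) {R v g : V n} (hR : R ∈ closure C) {t t' : ℝ}
    (h : InA C R v g t) (ht : t' ≤ t) : InA C R v g t' := by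
  have he : Real.exp t' = Real.exp (t' - t) * Real.exp t := by
    rw [← Real.exp_add, sub_add_cancel]
  have h1 : Real.exp (t' - t) ≤ 1 := Real.exp_le_one_iff.2 (by linarith)
  have h0 : 0 ≤ Real.exp (t' - t) := (Real.exp_pos _).le
  have hR' : (1 / 2 * (1 - Real.exp (t' - t))) • R ∈ closure C :=
    hC.cl_smul hR (mul_nonneg (by norm_num) (by linarith))
  constructor
  · have h2 := hC.cl_add (hC.cl_smul h.1 h0) hR'
    have h3 : Real.exp (t' - t) • ((1 / 2 : ℝ) • (R + Real.exp t • g) - Real.exp t • (v - g)) +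
        (1 / 2 * (1 - Real.exp (t' - t))) • R =
        (1 / 2 : ℝ) • (R + (Real.exp (t' - t) * Real.exp t) • g) -
          (Real.exp (t' - t) * Real.exp t) • (v - g) := by module
    rw [h3, ← he] at h2
    exact h2
  · have h2 := hC.cl_add (hC.cl_smul h.2 h0) hR'
    have h3 : Real.exp (t' - t) • ((1 / 2 : ℝ) • (R + Real.exp t • g) + Real.exp t • (v - g)) +
        (1 / 2 * (1 - Real.exp (t' - t))) • R =
        (1 / 2 : ℝ) • (R + (Real.exp (t' - t) * Real.exp t) • g) +
          (Real.exp (t' - t) * Real.exp t) • (v - g) := by module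
    rw [h3, ← he] at h2
    exact h2

/-- the sets `A_g` are uniformly bounded above -/
theorem bdd (hC : PCone C) {R v : V n} (hR : R ∈ closure C) (hv : v ∈ closure C) (hv0 : v ≠ 0)
    (hE : Ext C v) (hvR : v + R ∈ C) (P : V n → Prop) (hPcl : ∀ g, P g → g ∈ closure C)
    (hPlim : ∀ (g : ℕ → V n) (g0 : V n), (∀ k, P (g k)) → Tendsto g atTop (𝓝 g0) →
      g0 + R ∈ C → P g0)
    (hPscl : ∀ g, ∀ a : ℝ, P g → 0 < a → P (a • g)) (hnot : ¬ P v) :
    ∃ B : ℝ, ∀ (g : V n) (t : ℝ), P g → InA C R v g t → t ≤ B := by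
  by_contra hcon
  push Not at hcon
  have h1 : ∀ k : ℕ, ∃ (g : V n) (t : ℝ), P g ∧ InA C R v g t ∧ (k : ℝ) < t := fun k => hcon k
  choose g t hP hA ht using h1
  have htt : Tendsto t atTop atTop :=
    tendsto_atTop_mono (fun k => (ht k).le) tendsto_natCast_atTop_atTop
  have he : Tendsto (fun k => Real.exp (-(t k))) atTop (𝓝 0) :=
    Real.tendsto_exp_neg_atTop_nhds_zero.comp htt
  have hee : ∀ k, Real.exp (-(t k)) * Real.exp (t k) = 1 := fun k => by
    rw [← Real.exp_add, neg_add_cancel, Real.exp_zero]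
  have e1 : ∀ k, (3 / 2 : ℝ) • g k + (1 / 2 * Real.exp (-(t k))) • R - v ∈ closure C := by
    intro k
    have h2 := hC.cl_smul (hA k).1 (Real.exp_pos (-(t k))).le
    have h3 : Real.exp (-(t k)) • ((1 / 2 : ℝ) • (R + Real.exp (t k) • g k) -
        Real.exp (t k) • (v - g k)) =
        (1 / 2 * Real.exp (-(t k))) • R + (1 / 2 * (Real.exp (-(t k)) * Real.exp (t k))) • g k -
          (Real.exp (-(t k)) * Real.exp (t k)) • (v - g k) := by module
    rw [h3, hee k] at h2
    have h4 : (3 / 2 : ℝ) • g k + (1 / 2 * Real.exp (-(t k))) • R - v =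
        (1 / 2 * Real.exp (-(t k))) • R + (1 / 2 * (1 : ℝ)) • g k - (1 : ℝ) • (v - g k) := by
      module
    rw [h4]; exact h2
  have e2 : ∀ k, ((2 : ℝ) • v + Real.exp (-(t k)) • R) - g k ∈ closure C := by
    intro k
    have h2 := hC.cl_smul (hC.cl_smul (hA k).2 (Real.exp_pos (-(t k))).le)
      (show (0 : ℝ) ≤ 2 by norm_num)
    have h3 : (2 : ℝ) • (Real.exp (-(t k)) • ((1 / 2 : ℝ) • (R + Real.exp (t k) • g k) +
        Real.exp (t k) • (v - g k))) =
        Real.exp (-(t k)) • R + (Real.exp (-(t k)) * Real.exp (t k)) • g k +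
          (2 * (Real.exp (-(t k)) * Real.exp (t k))) • (v - g k) := by module
    rw [h3, hee k] at h2
    have h4 : ((2 : ℝ) • v + Real.exp (-(t k)) • R) - g k =
        Real.exp (-(t k)) • R + (1 : ℝ) • g k + (2 * (1 : ℝ)) • (v - g k) := by module
    rw [h4]; exact h2
  have hq : Tendsto (fun k => (2 : ℝ) • v + Real.exp (-(t k)) • R) atTop
      (𝓝 ((2 : ℝ) • v + (0 : ℝ) • R)) :=
    tendsto_const_nhds.add (he.smul_const R)
  obtain ⟨a, φ, hφ, ha⟩ := subseq hC hq (fun k => hPcl _ (hP k)) e2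
  have ha0 : a ∈ closure C :=
    isClosed_closure.mem_of_tendsto ha (Eventually.of_forall fun k => hPcl _ (hP (φ k)))
  have heφ : Tendsto (fun k => Real.exp (-(t (φ k)))) atTop (𝓝 0) := he.comp hφ.tendsto_atTop
  have l1 : (3 / 2 : ℝ) • a + (1 / 2 * (0 : ℝ)) • R - v ∈ closure C :=
    isClosed_closure.mem_of_tendsto (((ha.const_smul (3 / 2 : ℝ)).add
      ((heφ.const_mul (1 / 2 : ℝ)).smul_const R)).sub_const v)
      (Eventually.of_forall fun k => e1 (φ k))
  have l2 : ((2 : ℝ) • v + (0 : ℝ) • R) - a ∈ closure C :=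
    isClosed_closure.mem_of_tendsto ((tendsto_const_nhds.add (heφ.smul_const R)).sub ha)
      (Eventually.of_forall fun k => e2 (φ k))
  rw [mul_zero, zero_smul, add_zero] at l1
  rw [zero_smul, add_zero] at l2
  obtain ⟨b, hb⟩ := hE a ha0 2 l2
  have hb0 : 0 < b := by
    by_contra hb1
    rw [not_lt] at hb1
    refine hv0 (hC.salient v hv ?_)
    have h3 := hC.cl_add l1 (hC.cl_smul hv (show (0 : ℝ) ≤ -(3 / 2 * b) by linarith))
    have h4 : (3 / 2 : ℝ) • a - v + (-(3 / 2 * b)) • v = -v := by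
      rw [hb]; module
    rwa [h4] at h3
  have haR : a + R ∈ C := by
    rw [hb]
    rcases le_total 1 b with h1b | h1b
    · have h3 := hC.add_cl hvR (hC.cl_smul hv (show (0 : ℝ) ≤ b - 1 by linarith))
      have h4 : v + R + (b - 1) • v = b • v + R := by module
      rwa [h4] at h3
    · have h3 := hC.add_cl (hC.smul _ hvR b hb0) (hC.cl_smul hR (show (0 : ℝ) ≤ 1 - b by linarith))
      have h4 : b • (v + R) + (1 - b) • R = b • v + R := by module
      rwa [h4] at h3
  have hPa : P a := hPlim _ a (fun k => hP (φ k)) ha haR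
  refine hnot ?_
  have h5 := hPscl a b⁻¹ hPa (inv_pos.2 hb0)
  rwa [hb, smul_smul, inv_mul_cancel₀ hb0.ne', one_smul] at h5

end Aux

section Core

variable {n K : ℕ} {C : Set (V n)} {Γ Γ₀ : Subgroup (GL (Fin n) ℝ)} {p : Fin K}
  {c : Fin K → ℕ} {F : (Fin K → V n) → Prop}

theorem sum_upd (w : Fin K → V n) (p : Fin K) (x : V n) :
    ∑ i, Function.update w p x i = x + fS w {p}ᶜ := by
  rw [Finset.sum_update_of_mem (Finset.mem_univ p)]
  unfold fS
  rw [Finset.compl_eq_univ_sdiff]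

theorem sum_p (w : Fin K → V n) (p : Fin K) : ∑ i, w i = w p + fS w {p}ᶜ := by
  have := sum_upd w p (w p)
  rwa [Function.update_eq_self] at this

/-- scaling of the vertex `p` -/
theorem scl_upd (hF : FAM C Γ Γ₀ F) {w : Fin K → V n} {g : V n} {a : ℝ} (ha : 0 < a)
    (h : F (Function.update w p g)) : F (Function.update w p (a • g)) := by
  have h1 := hF.scl _ h (Function.update (fun _ => 1) p a) (by
    intro i
    by_cases hi : i = p
    · subst hi; rw [Function.update_self]; exact ha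
    · rw [Function.update_of_ne hi]; exact one_pos)
  have h2 : (fun i => (Function.update (fun _ => (1 : ℝ)) p a : Fin K → ℝ) i •
      Function.update w p g i) = Function.update w p (a • g) := by
    funext i
    by_cases hi : i = p
    · subst hi; simp
    · simp [Function.update_of_ne hi]
  rwa [h2] at h1

theorem core (aln : AlnStmt) (lft : LftStmt) (hSL : SL C Γ Γ₀ p (Finset.univ.erase p) c F)
    (w z : ℕ → Fin K → V n) (g : ℕ → V n) (t ε : ℕ → ℝ) (γ : ℕ → GL (Fin n) ℝ) (s : ℕ → ℝ)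
    (W : Fin K → V n) (W' : V n) (hFz : ∀ k, F (z k))
    (hNr : ∀ k, Nr C (ε k) (w k) (z k)) (hε0 : ∀ k, 0 ≤ ε k)
    (hεt : Tendsto ε atTop (𝓝 0)) (hFg : ∀ k, F (Function.update (w k) p (g k)))
    (hdom : ∀ k, (3 : ℝ) • (fS (w k) {p}ᶜ + Real.exp (t k) • g k) - ∑ i, w k i ∈ closure C)
    (hA : ∀ k, InA C (fS (w k) {p}ᶜ) (z k p) (g k) (t k))
    (hmax : ∀ k (g' : V n) (t' : ℝ), F (Function.update (w k) p g') →
      InA C (fS (w k) {p}ᶜ) (z k p) g' t' → t' ≤ t k + 1 / 2)
    (hγ : ∀ k, γ k ∈ Γ₀) (hs : ∀ k, 0 < s k) (hFW : F W)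
    (hlim : ∀ i, Tendsto (fun k => s k • act (γ k)
      ((Function.update (fun _ => (1 : ℝ)) p (Real.exp (t k)) : Fin K → ℝ) i •
        (Function.update (w k) p (g k)) i)) atTop (𝓝 (W i)))
    (hW' : Tendsto (fun k => s k • act (γ k) (Real.exp (t k) • z k p)) atTop (𝓝 W')) :
    False := by
  have hC : PCone C := hSL.cc.toPCone
  have hFA : FAM C Γ Γ₀ F := hSL.toFAM
  obtain ⟨Gl, hGl⟩ : ∃ Gl : ℕ → V n →ₗ[ℝ] V n, ∀ k x, Gl k x = s k • act (γ k) x :=
    ⟨fun k => s k • Matrix.mulVecLin (γ k : Matrix (Fin n) (Fin n) ℝ), fun k x => rfl⟩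
  have hGcl : ∀ k x, x ∈ closure C → Gl k x ∈ closure C := fun k x hx => by
    rw [hGl]
    exact (hSL.cc.sact_cl_iff (hFA.sub (hγ k)) (hs k)).2 hx
  have hGcl' : ∀ k x, Gl k x ∈ closure C → x ∈ closure C := fun k x hx => by
    rw [hGl] at hx
    exact (hSL.cc.sact_cl_iff (hFA.sub (hγ k)) (hs k)).1 hx
  have hWp : Tendsto (fun k => Gl k (Real.exp (t k) • g k)) atTop (𝓝 (W p)) := by
    refine (hlim p).congr fun k => ?_
    rw [Function.update_self, Function.update_self, hGl]
  have hWl : ∀ l, l ≠ p → Tendsto (fun k => Gl k (w k l)) atTop (𝓝 (W l)) := by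
    intro l hl
    refine (hlim l).congr fun k => ?_
    rw [Function.update_of_ne hl, Function.update_of_ne hl, one_smul, hGl]
  have hR : Tendsto (fun k => Gl k (fS (w k) {p}ᶜ)) atTop (𝓝 (fS W {p}ᶜ)) := by
    have h1 : ∀ k, Gl k (fS (w k) {p}ᶜ) = ∑ l ∈ ({p}ᶜ : Finset (Fin K)), Gl k (w k l) :=
      fun k => map_sum _ _ _
    simp only [h1]
    exact tendsto_finsetSum _ fun l hl => hWl l (by simpa using hl)
  have hq : Tendsto (fun k => Gl k (fS (w k) {p}ᶜ + Real.exp (t k) • g k)) atTop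
      (𝓝 (fS W {p}ᶜ + W p)) := by
    refine (hR.add hWp).congr fun k => ?_
    rw [map_add]
  have hqC : fS W {p}ᶜ + W p ∈ C := by
    have h1 := (hFA.pes W hFW).1.sum_mem
    rwa [sum_p W p, add_comm] at h1
  have hz : ∀ l, l ≠ p → Tendsto (fun k => Gl k (z k l)) atTop (𝓝 (W l)) := by
    intro l hl
    have h1 : Tendsto (fun k => Gl k (z k l - w k l)) atTop (𝓝 0) := by
      have hδ : Tendsto (fun k => 3 * ε k) atTop (𝓝 0) := by
        have := hεt.const_mul 3
        rwa [mul_zero] at this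
      refine small hC hq hδ (fun k => ?_) fun k => ?_
      · have h2 : (3 * ε k) • Gl k (fS (w k) {p}ᶜ + Real.exp (t k) • g k) -
            Gl k (z k l - w k l) = Gl k (ε k • ((3 : ℝ) • (fS (w k) {p}ᶜ +
              Real.exp (t k) • g k) - ∑ i, w k i) +
            (ε k • (∑ i, w k i) - (z k l - w k l))) := by
          rw [← map_smul, ← map_sub]
          congr 1
          module
        rw [h2]
        exact hGcl k _ (hC.cl_add (hC.cl_smul (hdom k) (hε0 k)) (hNr k l).1)
      · have h2 : (3 * ε k) • Gl k (fS (w k) {p}ᶜ + Real.exp (t k) • g k) +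
            Gl k (z k l - w k l) = Gl k (ε k • ((3 : ℝ) • (fS (w k) {p}ᶜ +
              Real.exp (t k) • g k) - ∑ i, w k i) +
            (ε k • (∑ i, w k i) + (z k l - w k l))) := by
          rw [← map_smul, ← map_add]
          congr 1
          module
        rw [h2]
        exact hGcl k _ (hC.cl_add (hC.cl_smul (hdom k) (hε0 k)) (hNr k l).2)
    have h2 := (hWl l hl).add h1
    rw [add_zero] at h2
    refine h2.congr fun k => ?_
    rw [← map_add]
    congr 1
    abel
  have hW'' : Tendsto (fun k => Gl k (Real.exp (t k) • z k p)) atTop (𝓝 W') := by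
    refine hW'.congr fun k => ?_
    rw [hGl]
  have hlow : (1 / 2 : ℝ) • (fS W {p}ᶜ + W p) + (W' - W p) ∈ closure C := by
    refine isClosed_closure.mem_of_tendsto ((hq.const_smul (1 / 2 : ℝ)).add (hW''.sub hWp))
      (Eventually.of_forall fun k => ?_)
    have h2 := hGcl k _ (hA k).2
    have h3 : Gl k ((1 / 2 : ℝ) • (fS (w k) {p}ᶜ + Real.exp (t k) • g k) +
        Real.exp (t k) • (z k p - g k)) =
        (1 / 2 : ℝ) • Gl k (fS (w k) {p}ᶜ + Real.exp (t k) • g k) +
          (Gl k (Real.exp (t k) • z k p) - Gl k (Real.exp (t k) • g k)) := by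
      rw [map_add, map_smul, smul_sub, map_sub]
    rwa [h3] at h2
  have hW'C : fS W {p}ᶜ + W' ∈ C := by
    have h1 := hC.add_cl (hC.smul _ hqC (1 / 2) (by norm_num)) hlow
    have h2 : (1 / 2 : ℝ) • (fS W {p}ᶜ + W p) + ((1 / 2 : ℝ) • (fS W {p}ᶜ + W p) + (W' - W p)) =
        fS W {p}ᶜ + W' := by module
    rwa [h2] at h1
  have hr : ∀ k i, 0 < (Function.update (fun _ => (1 : ℝ)) p (Real.exp (t k)) : Fin K → ℝ) i := by
    intro k i
    by_cases hi : i = p
    · subst hi; rw [Function.update_self]; exact Real.exp_pos _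
    · rw [Function.update_of_ne hi]; exact one_pos
  have hFW' : F (Function.update W p W') := by
    refine hFA.cld (fun k i => s k • act (γ k)
      ((Function.update (fun _ => (1 : ℝ)) p (Real.exp (t k)) : Fin K → ℝ) i • z k i)) _
      (fun k => ?_) (fun i => ?_) ?_
    · exact hFA.scl _ (hFA.inv _ (hFA.scl _ (hFz k) _ (hr k)) (γ k) (hγ k)) (fun _ => s k)
        fun _ => hs k
    · by_cases hi : i = p
      · subst hi
        rw [Function.update_self]
        refine hW'.congr fun k => ?_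
        rw [Function.update_self]
      · rw [Function.update_of_ne hi]
        refine (hz i hi).congr fun k => ?_
        rw [Function.update_of_ne hi, one_smul, hGl]
    · rw [sum_upd, add_comm]; exact hW'C
  have hRc : Rc C F p (Finset.univ.erase p) W W' := by
    refine (aln n C Γ Γ₀ K p _ c F hSL W hFW W').2 ⟨hFW', ?_⟩
    rw [Finset.insert_erase (Finset.mem_univ p), fS_univ]
    obtain ⟨M, hM, hM1⟩ := hC.absorb (hFA.pes W hFW).1.sum_mem W'
    exact ⟨M, hM, subset_closure hM1⟩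
  obtain ⟨x, hx, hxt⟩ := lft n C Γ Γ₀ K p _ c F hSL
    (fun k => Function.update (w k) p (g k)) W
    (fun k => Function.update (fun _ => (1 : ℝ)) p (Real.exp (t k))) γ s hFg hFW hr hγ hs hlim
    W' hRc
  have hFx : ∀ k, F (Function.update (w k) p (x k)) := by
    intro k
    have h1 := ((aln n C Γ Γ₀ K p _ c F hSL (Function.update (w k) p (g k)) (hFg k) (x k)).1
      (hx k)).1
    rwa [Function.update_idem] at h1
  have hxcl : ∀ k, x k ∈ closure C := by
    intro k
    have h1 := (hFA.pes _ (hFx k)).1.cl p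
    rwa [Function.update_self] at h1
  have hxt' : Tendsto (fun k => Gl k (Real.exp (t k) • x k)) atTop (𝓝 W') := by
    refine hxt.congr fun k => ?_
    rw [Function.update_self, hGl]
  have hd : Tendsto (fun k => Real.exp 1 • (Gl k (Real.exp (t k) • z k p) -
      Gl k (Real.exp (t k) • x k))) atTop (𝓝 (Real.exp 1 • (W' - W'))) :=
    (hW''.sub hxt').const_smul (Real.exp 1)
  rw [sub_self, smul_zero] at hd
  have hm : Tendsto (fun k => (1 / 2 : ℝ) • (Gl k (fS (w k) {p}ᶜ) +
      Gl k (Real.exp (t k) • x k))) atTop (𝓝 ((1 / 2 : ℝ) • (fS W {p}ᶜ + W'))) :=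
    (hR.add hxt').const_smul (1 / 2 : ℝ)
  have hmC : (1 / 2 : ℝ) • (fS W {p}ᶜ + W') ∈ C := hC.smul _ hW'C _ (by norm_num)
  have hm1 := hm.sub hd
  have hm2 := hm.add hd
  rw [sub_zero] at hm1
  rw [add_zero] at hm2
  obtain ⟨k, hk1, hk2⟩ := ((hm1.eventually (hC.isOpen.mem_nhds hmC)).and
    (hm2.eventually (hC.isOpen.mem_nhds hmC))).exists
  have hk3 : (1 / 2 : ℝ) • (fS (w k) {p}ᶜ + Real.exp (t k) • x k) -
      (Real.exp (t k) * Real.exp 1) • (z k p - x k) ∈ closure C := by
    refine hGcl' k _ ?_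
    have h3 : Gl k ((1 / 2 : ℝ) • (fS (w k) {p}ᶜ + Real.exp (t k) • x k) -
        (Real.exp (t k) * Real.exp 1) • (z k p - x k)) =
        (1 / 2 : ℝ) • (Gl k (fS (w k) {p}ᶜ) + Gl k (Real.exp (t k) • x k)) -
          Real.exp 1 • (Gl k (Real.exp (t k) • z k p) - Gl k (Real.exp (t k) • x k)) := by
      simp only [map_sub, map_add, map_smul]
      module
    rw [h3]; exact subset_closure hk1
  have hk4 : (1 / 2 : ℝ) • (fS (w k) {p}ᶜ + Real.exp (t k) • x k) +
      (Real.exp (t k) * Real.exp 1) • (z k p - x k) ∈ closure C := by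
    refine hGcl' k _ ?_
    have h3 : Gl k ((1 / 2 : ℝ) • (fS (w k) {p}ᶜ + Real.exp (t k) • x k) +
        (Real.exp (t k) * Real.exp 1) • (z k p - x k)) =
        (1 / 2 : ℝ) • (Gl k (fS (w k) {p}ᶜ) + Gl k (Real.exp (t k) • x k)) +
          Real.exp 1 • (Gl k (Real.exp (t k) • z k p) - Gl k (Real.exp (t k) • x k)) := by
      simp only [map_sub, map_add, map_smul]
      module
    rw [h3]; exact subset_closure hk2
  have hxk : (1 / 2 * (Real.exp (t k) * Real.exp 1 - Real.exp (t k))) • x k ∈ closure C := by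
    refine hC.cl_smul (hxcl k) ?_
    have h1 : (1 : ℝ) ≤ Real.exp 1 := Real.one_le_exp (by norm_num)
    have h2 := Real.exp_pos (t k)
    nlinarith
  have hin : InA C (fS (w k) {p}ᶜ) (z k p) (x k) (t k + 1) := by
    unfold InA
    rw [Real.exp_add]
    constructor
    · have h5 := hC.cl_add hk3 hxk
      have h6 : (1 / 2 : ℝ) • (fS (w k) {p}ᶜ + Real.exp (t k) • x k) -
          (Real.exp (t k) * Real.exp 1) • (z k p - x k) +
          (1 / 2 * (Real.exp (t k) * Real.exp 1 - Real.exp (t k))) • x k =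
          (1 / 2 : ℝ) • (fS (w k) {p}ᶜ + (Real.exp (t k) * Real.exp 1) • x k) -
            (Real.exp (t k) * Real.exp 1) • (z k p - x k) := by module
      rwa [h6] at h5
    · have h5 := hC.cl_add hk4 hxk
      have h6 : (1 / 2 : ℝ) • (fS (w k) {p}ᶜ + Real.exp (t k) • x k) +
          (Real.exp (t k) * Real.exp 1) • (z k p - x k) +
          (1 / 2 * (Real.exp (t k) * Real.exp 1 - Real.exp (t k))) • x k =
          (1 / 2 : ℝ) • (fS (w k) {p}ᶜ + (Real.exp (t k) * Real.exp 1) • x k) +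
            (Real.exp (t k) * Real.exp 1) • (z k p - x k) := by module
      rwa [h6] at h5
  have h7 := hmax k (x k) (t k + 1) (hFx k) hin
  linarith

end Core

/-- Row MIX of `Pool/Agent/VMX/StmtsA.lean`. -/
theorem mix (zge : ZgeStmt) (aln : AlnStmt) (lft : LftStmt) : MixStmt := by
  intro n C Γ Γ₀ K p c F hSL
  have hC : PCone C := hSL.cc.toPCone
  have hFA : FAM C Γ Γ₀ F := hSL.toFAM
  by_contra hcon
  push Not at hcon
  have hexp : ∀ k : ℕ, Real.exp (-((k : ℝ) + 1)) ≤ 1 := fun k =>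
    Real.exp_le_one_iff.2 (by have : (0 : ℝ) ≤ k := Nat.cast_nonneg k; linarith)
  have hε : ∀ k : ℕ, ∃ (w z : Fin K → V n), F w ∧ F z ∧
      Nr C (Real.exp (-((k : ℝ) + 1)) / 2) w z ∧ ¬ F (Function.update w p (z p)) := by
    intro k
    obtain ⟨w, z, h1, h2, h3, h4⟩ := hcon (Real.exp (-((k : ℝ) + 1)) / 2)
      (half_pos (Real.exp_pos _)) (by have := hexp k; linarith)
    exact ⟨w, z, h1, h2, h3, h4⟩
  choose w z hFw hFz hNr hnot using hε
  have hwcl : ∀ k i, w k i ∈ closure C := fun k i => (hFA.pes _ (hFw k)).1.cl i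
  have hzcl : ∀ k i, z k i ∈ closure C := fun k i => (hFA.pes _ (hFz k)).1.cl i
  have hRcl : ∀ k, fS (w k) {p}ᶜ ∈ closure C := fun k => fS_cl hC (hwcl k) _
  -- the best pair
  have hstep : ∀ k : ℕ, ∃ (g : V n) (t : ℝ), F (Function.update (w k) p g) ∧
      InA C (fS (w k) {p}ᶜ) (z k p) g t ∧ (k : ℝ) + 1 / 2 ≤ t ∧
      ∀ (g' : V n) (t' : ℝ), F (Function.update (w k) p g') →
        InA C (fS (w k) {p}ᶜ) (z k p) g' t' → t' ≤ t + 1 / 2 := by
    intro k
    have hPES := (hFA.pes _ (hFz k))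
    have hv0 : z k p ≠ 0 := (hSL.cc.hul).lamNe _ (hPES.2 p)
    have hE : Ext C (z k p) := exv n C Γ hSL.cc K (by have := hSL.three; omega) hSL.maxc _ hPES p
    have hsum : w k p + fS (w k) {p}ᶜ ∈ C := by
      have := (hFA.pes _ (hFw k)).1.sum_mem
      rwa [sum_p (w k) p] at this
    have hn1 := (hNr k p).1
    have hn2 := (hNr k p).2
    rw [sum_p (w k) p] at hn1 hn2
    have hvR : z k p + fS (w k) {p}ᶜ ∈ C := by
      have h1 : 0 < 1 - Real.exp (-((k : ℝ) + 1)) / 2 := by have := hexp k; linarith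
      have h2 := hC.add_cl (hC.smul _ hsum _ h1) hn2
      have h3 : (1 - Real.exp (-((k : ℝ) + 1)) / 2) • (w k p + fS (w k) {p}ᶜ) +
          ((Real.exp (-((k : ℝ) + 1)) / 2) • (w k p + fS (w k) {p}ᶜ) + (z k p - w k p)) =
          z k p + fS (w k) {p}ᶜ := by module
      rwa [h3] at h2
    obtain ⟨B, hB⟩ := bdd hC (hRcl k) (hzcl k p) hv0 hE hvR
      (fun g => F (Function.update (w k) p g))
      (fun g hg => by
        have := (hFA.pes _ hg).1.cl p
        rwa [Function.update_self] at this)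
      (fun g g0 hg hgt hg0 => by
        refine hFA.cld (fun m => Function.update (w k) p (g m)) _ hg (fun i => ?_) ?_
        · by_cases hi : i = p
          · subst hi
            simp only [Function.update_self]
            exact hgt
          · simp only [Function.update_of_ne hi]
            exact tendsto_const_nhds
        · rw [sum_upd]; exact hg0)
      (fun g a hg ha => scl_upd hFA ha hg) (hnot k)
    have ha : InA C (fS (w k) {p}ᶜ) (z k p) (w k p) ((k : ℝ) + 1) := by
      have hee : Real.exp ((k : ℝ) + 1) * Real.exp (-((k : ℝ) + 1)) = 1 := by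
        rw [← Real.exp_add, add_neg_cancel, Real.exp_zero]
      have h1e : 1 ≤ Real.exp ((k : ℝ) + 1) := Real.one_le_exp (by positivity)
      have hw' : (1 / 2 * (Real.exp ((k : ℝ) + 1) - 1)) • w k p ∈ closure C :=
        hC.cl_smul (hwcl k p) (mul_nonneg (by norm_num) (by linarith))
      constructor
      · have h2 := hC.cl_add (hC.cl_smul hn1 (Real.exp_pos ((k : ℝ) + 1)).le) hw'
        have h3 : Real.exp ((k : ℝ) + 1) • ((Real.exp (-((k : ℝ) + 1)) / 2) •
            (w k p + fS (w k) {p}ᶜ) - (z k p - w k p)) +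
            (1 / 2 * (Real.exp ((k : ℝ) + 1) - 1)) • w k p =
            ((Real.exp ((k : ℝ) + 1) * Real.exp (-((k : ℝ) + 1))) / 2) •
              (w k p + fS (w k) {p}ᶜ) - Real.exp ((k : ℝ) + 1) • (z k p - w k p) +
            (1 / 2 * (Real.exp ((k : ℝ) + 1) - 1)) • w k p := by module
        rw [h3, hee] at h2
        have h4 : (1 / 2 : ℝ) • (fS (w k) {p}ᶜ + Real.exp ((k : ℝ) + 1) • w k p) -
            Real.exp ((k : ℝ) + 1) • (z k p - w k p) =
            ((1 : ℝ) / 2) • (w k p + fS (w k) {p}ᶜ) -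
              Real.exp ((k : ℝ) + 1) • (z k p - w k p) +
            (1 / 2 * (Real.exp ((k : ℝ) + 1) - 1)) • w k p := by module
        rw [h4]; exact h2
      · have h2 := hC.cl_add (hC.cl_smul hn2 (Real.exp_pos ((k : ℝ) + 1)).le) hw'
        have h3 : Real.exp ((k : ℝ) + 1) • ((Real.exp (-((k : ℝ) + 1)) / 2) •
            (w k p + fS (w k) {p}ᶜ) + (z k p - w k p)) +
            (1 / 2 * (Real.exp ((k : ℝ) + 1) - 1)) • w k p =
            ((Real.exp ((k : ℝ) + 1) * Real.exp (-((k : ℝ) + 1))) / 2) •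
              (w k p + fS (w k) {p}ᶜ) + Real.exp ((k : ℝ) + 1) • (z k p - w k p) +
            (1 / 2 * (Real.exp ((k : ℝ) + 1) - 1)) • w k p := by module
        rw [h3, hee] at h2
        have h4 : (1 / 2 : ℝ) • (fS (w k) {p}ᶜ + Real.exp ((k : ℝ) + 1) • w k p) +
            Real.exp ((k : ℝ) + 1) • (z k p - w k p) =
            ((1 : ℝ) / 2) • (w k p + fS (w k) {p}ᶜ) +
              Real.exp ((k : ℝ) + 1) • (z k p - w k p) +
            (1 / 2 * (Real.exp ((k : ℝ) + 1) - 1)) • w k p := by module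
        rw [h4]; exact h2
    have hPw : F (Function.update (w k) p (w k p)) := by
      rw [Function.update_eq_self]; exact hFw k
    have hbdd : BddAbove {t : ℝ | ∃ g, F (Function.update (w k) p g) ∧
        InA C (fS (w k) {p}ᶜ) (z k p) g t} := by
      refine ⟨B, ?_⟩
      rintro t ⟨g, hg, hgt⟩
      exact hB g t hg hgt
    have hmem : ((k : ℝ) + 1) ∈ {t : ℝ | ∃ g, F (Function.update (w k) p g) ∧
        InA C (fS (w k) {p}ᶜ) (z k p) g t} := ⟨_, hPw, ha⟩
    obtain ⟨t, ⟨g, hg, hgt⟩, ht⟩ := exists_lt_of_lt_csSup ⟨_, hmem⟩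
      (show sSup {t : ℝ | ∃ g, F (Function.update (w k) p g) ∧
        InA C (fS (w k) {p}ᶜ) (z k p) g t} - 1 / 2 < sSup {t : ℝ | ∃ g,
        F (Function.update (w k) p g) ∧ InA C (fS (w k) {p}ᶜ) (z k p) g t} by linarith)
    refine ⟨g, t, hg, hgt, ?_, ?_⟩
    · have := le_csSup hbdd hmem
      linarith
    · intro g' t' hg' ht'
      have := le_csSup hbdd (show t' ∈ {t : ℝ | ∃ g, F (Function.update (w k) p g) ∧
        InA C (fS (w k) {p}ᶜ) (z k p) g t} from ⟨g', hg', ht'⟩)
      linarith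
  choose g t hFg hA ht hmax using hstep
  have ht0 : ∀ k, 0 ≤ t k := fun k => by
    have h1 := ht k
    have : (0 : ℝ) ≤ k := Nat.cast_nonneg k
    linarith
  have hgcl : ∀ k, g k ∈ closure C := fun k => by
    have := (hFA.pes _ (hFg k)).1.cl p
    rwa [Function.update_self] at this
  -- domination
  have hdom : ∀ k, (3 : ℝ) • (fS (w k) {p}ᶜ + Real.exp (t k) • g k) - ∑ i, w k i ∈ closure C := by
    intro k
    have h0 := ((hA k).mono hC (hRcl k) (ht0 k)).1
    rw [Real.exp_zero, one_smul, one_smul] at h0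
    have hn2 := (hNr k p).2
    rw [sum_p (w k) p] at hn2 ⊢
    have hε1 : Real.exp (-((k : ℝ) + 1)) / 2 ≤ 1 / 2 := by have := hexp k; linarith
    have hε0 : 0 ≤ Real.exp (-((k : ℝ) + 1)) / 2 := (half_pos (Real.exp_pos _)).le
    have h1e : 1 ≤ Real.exp (t k) := Real.one_le_exp (ht0 k)
    -- sum of nonnegative terms
    have a1 := hC.cl_smul h0 (show (0 : ℝ) ≤ 2 by norm_num)
    have a2 := hC.cl_smul hn2 (show (0 : ℝ) ≤ 2 by norm_num)
    have a3 := hC.cl_smul (hgcl k) (show (0 : ℝ) ≤ 3 * (Real.exp (t k) - 1) by linarith)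
    have a4 := hC.cl_smul (hC.cl_add (hwcl k p) (hRcl k))
      (show (0 : ℝ) ≤ 1 - 2 * (Real.exp (-((k : ℝ) + 1)) / 2) by linarith)
    have h5 := hC.cl_add (hC.cl_add (hC.cl_add a1 a2) a3) a4
    have h6 : (2 : ℝ) • ((1 / 2 : ℝ) • (fS (w k) {p}ᶜ + g k) - (z k p - g k)) +
        (2 : ℝ) • ((Real.exp (-((k : ℝ) + 1)) / 2) • (w k p + fS (w k) {p}ᶜ) +
          (z k p - w k p)) + (3 * (Real.exp (t k) - 1)) • g k +
        (1 - 2 * (Real.exp (-((k : ℝ) + 1)) / 2)) • (w k p + fS (w k) {p}ᶜ) =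
        (2 : ℝ) • fS (w k) {p}ᶜ + (3 * Real.exp (t k)) • g k - w k p := by module
    rw [h6] at h5
    have h7 : (3 : ℝ) • (fS (w k) {p}ᶜ + Real.exp (t k) • g k) -
        (w k p + fS (w k) {p}ᶜ) =
        (2 : ℝ) • fS (w k) {p}ᶜ + (3 * Real.exp (t k)) • g k - w k p := by module
    rw [h7]; exact h5
  have hr : ∀ k i, 0 < (Function.update (fun _ => (1 : ℝ)) p (Real.exp (t k)) : Fin K → ℝ) i := by
    intro k i
    by_cases hi : i = p
    · subst hi; rw [Function.update_self]; exact Real.exp_pos _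
    · rw [Function.update_of_ne hi]; exact one_pos
  obtain ⟨φ, γ, s, W, hφ, hγ, hs, hFW, hlim⟩ := zge n C Γ Γ₀ hSL.cc K
    (by have := hSL.three; omega) F hFA (fun k => Function.update (w k) p (g k)) hFg
    (fun k => Function.update (fun _ => (1 : ℝ)) p (Real.exp (t k))) hr
  -- the sequence of the sums
  have hsumt : Tendsto (fun k => s k • act (γ k) (fS (w (φ k)) {p}ᶜ +
      Real.exp (t (φ k)) • g (φ k))) atTop (𝓝 (∑ i, W i)) := by
    have h1 := tendsto_finsetSum Finset.univ fun i (_ : i ∈ Finset.univ) => hlim i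
    refine h1.congr fun k => ?_
    rw [← Finset.smul_sum, ← CC.act_sum]
    congr 2
    have h2 : (fun i => (Function.update (fun _ => (1 : ℝ)) p (Real.exp (t (φ k))) :
        Fin K → ℝ) i • Function.update (w (φ k)) p (g (φ k)) i) =
        Function.update (w (φ k)) p (Real.exp (t (φ k)) • g (φ k)) := by
      funext i
      by_cases hi : i = p
      · subst hi; simp
      · simp [Function.update_of_ne hi]
    rw [h2, sum_upd, add_comm]
  obtain ⟨W', ψ, hψ, hW'⟩ := subseq hC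
    (x := fun k => s k • act (γ k) (Real.exp (t (φ k)) • z (φ k) p))
    (hsumt.const_smul (3 / 2 : ℝ))
    (fun k => (hSL.cc.sact_cl_iff (hFA.sub (hγ k)) (hs k)).2
      (hC.cl_smul (hzcl _ _) (Real.exp_pos _).le))
    (fun k => by
      have h1 := (hSL.cc.sact_cl_iff (hFA.sub (hγ k)) (hs k)).2
        (hC.cl_add (hA (φ k)).1 (hRcl (φ k)))
      have h2 : (3 / 2 : ℝ) • (s k • act (γ k) (fS (w (φ k)) {p}ᶜ +
          Real.exp (t (φ k)) • g (φ k))) - s k • act (γ k) (Real.exp (t (φ k)) • z (φ k) p) =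
          s k • act (γ k) ((1 / 2 : ℝ) • (fS (w (φ k)) {p}ᶜ + Real.exp (t (φ k)) • g (φ k)) -
            Real.exp (t (φ k)) • (z (φ k) p - g (φ k)) + fS (w (φ k)) {p}ᶜ) := by
        rw [smul_comm, ← CC.act_smul, ← smul_sub, ← CC.act_sub]
        congr 2
        module
      rw [h2]; exact h1)
  refine core aln lft hSL (fun k => w (φ (ψ k))) (fun k => z (φ (ψ k))) (fun k => g (φ (ψ k)))
    (fun k => t (φ (ψ k))) (fun k => Real.exp (-(((φ (ψ k) : ℕ) : ℝ) + 1)) / 2)
    (fun k => γ (ψ k)) (fun k => s (ψ k)) W W' (fun k => hFz _) (fun k => hNr _)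
    (fun k => (half_pos (Real.exp_pos _)).le) ?_ (fun k => hFg _) (fun k => hdom _)
    (fun k => hA _) (fun k => hmax _) (fun k => hγ _) (fun k => hs _) hFW
    (fun i => (hlim i).comp hψ.tendsto_atTop) hW'
  have h1 : Tendsto (fun m : ℕ => Real.exp (-((m : ℝ) + 1)) / 2) atTop (𝓝 0) := by
    have h2 : Tendsto (fun m : ℕ => (m : ℝ) + 1) atTop atTop :=
      tendsto_atTop_add_const_right _ _ tendsto_natCast_atTop_atTop
    have h3 := (Real.tendsto_exp_neg_atTop_nhds_zero.comp h2).div_const 2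
    rw [zero_div] at h3
    exact h3
  exact h1.comp (hφ.comp hψ).tendsto_atTop

end Pool.Agent.VMX.H45
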