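import Pool.Agent.VMX.StmtsB
import Pool.Agent.Helper45_VMX.MIX

/-!
# Squad VMX, row ZSC (helper45): the box conditions `Zs` are closed
-/

set_option autoImplicit false

open Matrix Filter Topology

namespace Pool.Agent.VMX.H45

open Pool.Agent.PFS Pool.Agent.PFJ Pool.Agent.NBT Pool.Agent.VMX

section Zsc

variable {n K : ℕ} {C : Set (V n)} {Γ Γ₀ : Subgroup (GL (Fin n) ℝ)} {p : Fin K}
  {J : Finset (Fin K)} {c : Fin K → ℕ} {F : (Fin K → V n) → Prop}

theorem upd_cl (hSL : SL C Γ Γ₀ p J c F) {z : Fin K → V n} {x : V n}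
    (h : F (Function.update z p x)) : x ∈ closure C := by
  have h1 := (hSL.toFAM.pes _ h).1.cl p
  rwa [Function.update_self] at h1

theorem upd_ne (hSL : SL C Γ Γ₀ p J c F) {z : Fin K → V n} {x : V n}
    (h : F (Function.update z p x)) : x ≠ 0 := by
  have h1 := (hSL.cc.hul).lamNe _ ((hSL.toFAM.pes _ h).2 p)
  rwa [Function.update_self] at h1

theorem es_self (hSL : SL C Γ Γ₀ p J c F) {z : Fin K → V n} (hz : F z) {j : Fin K} (hj : j ≠ p)
    {x : V n} (hx : F (Function.update z p x)) : x ∈ Es C F p j (Function.update z p x) := by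
  refine Submodule.subset_span (Or.inr ⟨by rw [Function.update_idem]; exact hx, 1, one_pos, ?_⟩)
  rw [Function.update_self, Function.update_of_ne hj, one_smul, add_sub_cancel_left]
  exact (hSL.toFAM.pes _ hz).1.cl j

theorem es_j {z : Fin K → V n} {j : Fin K} (hj : j ≠ p) {x : V n} :
    z j ∈ Es C F p j (Function.update z p x) := by
  refine Submodule.subset_span (Or.inl ?_)
  rw [Set.mem_singleton_iff, Function.update_of_ne hj]

theorem es_unit (hSL : SL C Γ Γ₀ p J c F) {z : Fin K → V n} (hz : F z) {j : Fin K} (hj : j ≠ p)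
    {x : V n} (hx : F (Function.update z p x)) :
    Unt C (Es C F p j (Function.update z p x)) (x + z j) := by
  have hC : PCone C := hSL.cc.toPCone
  have hxc := upd_cl hSL hx
  have hzj : z j ∈ closure C := (hSL.toFAM.pes _ hz).1.cl j
  have hy : x + z j ∈ closure C := hC.cl_add hxc hzj
  have key : ∀ v ∈ Es C F p j (Function.update z p x), ∃ M : ℝ, 0 < M ∧
      M • (x + z j) - v ∈ closure C ∧ M • (x + z j) + v ∈ closure C := by
    intro v hv
    induction hv using Submodule.span_induction with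
    | mem v hv =>
      rcases hv with hv | hv
      · rw [Set.mem_singleton_iff, Function.update_of_ne hj] at hv
        subst hv
        refine ⟨1, one_pos, ?_, ?_⟩
        · rw [one_smul, add_sub_cancel_right]; exact hxc
        · rw [one_smul]; exact hC.cl_add hy hzj
      · obtain ⟨hv1, M, hM, hM1⟩ := hv
        rw [Function.update_self, Function.update_of_ne hj] at hM1
        exact ⟨M, hM, hM1, hC.cl_add (hC.cl_smul hy hM.le) (upd_cl hSL hv1)⟩
    | zero => exact ⟨1, one_pos, by rw [one_smul, sub_zero]; exact hy,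
        by rw [one_smul, add_zero]; exact hy⟩
    | add v w _ _ hv hw =>
      obtain ⟨M, hM, h1, h2⟩ := hv
      obtain ⟨N, hN, h3, h4⟩ := hw
      refine ⟨M + N, add_pos hM hN, ?_, ?_⟩
      · have h5 := hC.cl_add h1 h3
        have h6 : (M + N) • (x + z j) - (v + w) =
            M • (x + z j) - v + (N • (x + z j) - w) := by module
        rw [h6]; exact h5
      · have h5 := hC.cl_add h2 h4
        have h6 : (M + N) • (x + z j) + (v + w) =
            M • (x + z j) + v + (N • (x + z j) + w) := by module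
        rw [h6]; exact h5
    | smul a v _ hv =>
      obtain ⟨M, hM, h1, h2⟩ := hv
      rcases le_total 0 a with ha | ha
      · refine ⟨a * M + 1, by positivity, ?_, ?_⟩
        · have h5 := hC.cl_add (hC.cl_smul h1 ha) hy
          have h6 : (a * M + 1) • (x + z j) - a • v =
              a • (M • (x + z j) - v) + (x + z j) := by module
          rw [h6]; exact h5
        · have h5 := hC.cl_add (hC.cl_smul h2 ha) hy
          have h6 : (a * M + 1) • (x + z j) + a • v =
              a • (M • (x + z j) + v) + (x + z j) := by module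
          rw [h6]; exact h5
      · have ha' : 0 ≤ -a := by linarith
        refine ⟨-a * M + 1, by positivity, ?_, ?_⟩
        · have h5 := hC.cl_add (hC.cl_smul h2 ha') hy
          have h6 : (-a * M + 1) • (x + z j) - a • v =
              (-a) • (M • (x + z j) + v) + (x + z j) := by module
          rw [h6]; exact h5
        · have h5 := hC.cl_add (hC.cl_smul h1 ha') hy
          have h6 : (-a * M + 1) • (x + z j) + a • v =
              (-a) • (M • (x + z j) - v) + (x + z j) := by module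
          rw [h6]; exact h5
  exact ⟨Submodule.add_mem _ (es_self hSL hz hj hx) (es_j hj), hy, fun v hv => by
    obtain ⟨M, hM, h1, -⟩ := key v hv
    exact ⟨M, hM, h1⟩⟩

/-- the positive combination `x + z j + exp (-T) R` is in the cone -/
theorem comb_mem (hSL : SL C Γ Γ₀ p J c F) {z : Fin K → V n} {j : Fin K} (hj : j ≠ p)
    {x : V n} (hx : F (Function.update z p x)) (T : ℝ) :
    x + z j + Real.exp (-T) • fS z {p, j}ᶜ ∈ C := by
  classical
  have h1 := (hSL.toFAM.pes _ hx).1.pos
    (fun i => if i ∈ ({p, j} : Finset (Fin K)) then 1 else Real.exp (-T))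
    (fun i => by split_ifs; exacts [one_pos, Real.exp_pos _])
  rw [← Finset.sum_add_sum_compl ({p, j} : Finset (Fin K))] at h1
  have h2 : ∑ i ∈ ({p, j} : Finset (Fin K)), (if i ∈ ({p, j} : Finset (Fin K)) then (1 : ℝ)
      else Real.exp (-T)) • Function.update z p x i = x + z j := by
    rw [Finset.sum_pair hj.symm]
    simp [Function.update_of_ne hj]
  have h3 : ∑ i ∈ ({p, j} : Finset (Fin K))ᶜ, (if i ∈ ({p, j} : Finset (Fin K)) then (1 : ℝ)
      else Real.exp (-T)) • Function.update z p x i = Real.exp (-T) • fS z {p, j}ᶜ := by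
    unfold fS
    rw [Finset.smul_sum]
    refine Finset.sum_congr rfl fun i hi => ?_
    rw [Finset.mem_compl] at hi
    have hip : i ≠ p := by
      rintro rfl
      exact hi (Finset.mem_insert_self _ _)
    rw [if_neg hi, Function.update_of_ne hip]
  rw [h2, h3] at h1
  exact h1

end Zsc

/-- Row ZSC of `Pool/Agent/VMX/StmtsB.lean`. -/
theorem zsc (aln : AlnStmt) (sqr : SqrStmt) (sqn : SqnStmt) (oso : OsoStmt) : ZscStmt := by
  intro n C Γ Γ₀ K p J c F hSL j r z h hj hjJ hBs
  have hC : PCone C := hSL.cc.toPCone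
  have hFz := hBs.fz
  have hRF : ∀ x, Rc C F p J z x → F (Function.update z p x) := fun x hx =>
    ((aln n C Γ Γ₀ K p J c F hSL z hFz x).1 hx).1
  have hzcl : ∀ i, z i ∈ closure C := fun i => (hSL.toFAM.pes _ hFz).1.cl i
  have hRcl : fS z {p, j}ᶜ ∈ closure C := fS_cl hC hzcl _
  refine ⟨?_, ?_, ?_, ?_⟩
  · -- (1)
    intro ε N T x x0 hε hN hOS0 hOSk hx hZk u hu h1 h2
    obtain ⟨hRc0, q0, hSq0, hLI0⟩ := hOS0
    have hEs := ((oso n C Γ Γ₀ K p J c F hSL j r z h hj hjJ hBs).1 x0 q0 hRc0 hSq0 hLI0).1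
    rw [hEs, Submodule.mem_span_range_iff_exists_fun] at hu
    obtain ⟨a, rfl⟩ := hu
    have hx0ne : x0 ≠ 0 := upd_ne hSL (hRF x0 hRc0)
    have hx0n : 0 < ‖x0‖ := norm_pos_iff.2 hx0ne
    have hq0ne : ∀ l, q0 l ≠ 0 := fun l => by
      have h3 := (hSq0 l).1.1
      rw [Function.update_idem] at h3
      exact upd_ne hSL h3
    have hex : ∀ k, ∀ l, ∃ q : V n, Sq C F p J j z (h l) (x k) q ∧ ‖q‖ = ‖x k‖ := by
      intro k l
      obtain ⟨hs1, -, hs3⟩ := sqr n C Γ Γ₀ K p J c F hSL z hFz j hj hjJ (h l) (hBs.tm l) (x k)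
        (hOSk k).1
      obtain ⟨q, hq⟩ := hs1
      have hqne : q ≠ 0 := by
        have h3 := hq.1.1
        rw [Function.update_idem] at h3
        exact upd_ne hSL h3
      have hqn : 0 < ‖q‖ := norm_pos_iff.2 hqne
      have hxn : 0 < ‖x k‖ := norm_pos_iff.2 (upd_ne hSL (hRF _ (hOSk k).1))
      refine ⟨(‖x k‖ / ‖q‖) • q, hs3 q _ (div_pos hxn hqn) hq, ?_⟩
      rw [norm_smul, Real.norm_of_nonneg (div_pos hxn hqn).le, div_mul_cancel₀ _ hqn.ne']
    choose q hq hqn using hex
    have hqlim : ∀ l, Tendsto (fun k => q k l) atTop (𝓝 ((‖x0‖ / ‖q0 l‖) • q0 l)) := by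
      intro l
      have hqn0 : 0 < ‖q0 l‖ := norm_pos_iff.2 (hq0ne l)
      refine sqn n C Γ Γ₀ K p J c F hSL z hFz j hj hjJ (h l) (hBs.tm l) x (fun k => q k l) x0 _
        (fun k => (hOSk k).1) hRc0 (fun k => hq k l)
        ((sqr n C Γ Γ₀ K p J c F hSL z hFz j hj hjJ (h l) (hBs.tm l) x0 hRc0).2.2 _ _
          (div_pos hx0n hqn0) (hSq0 l)) hx (fun k => hqn k l) ?_
      rw [norm_smul, Real.norm_of_nonneg (div_pos hx0n hqn0).le, div_mul_cancel₀ _ hqn0.ne']
    -- the approximating tuples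
    obtain ⟨f, hf⟩ : ∃ f : ℕ → Fin (r + 2) → V n, f = fun k =>
        Fin.cons (x k) (Fin.cons (z j) fun l => (‖q0 l‖ / ‖x0‖) • q k l) := ⟨_, rfl⟩
    have hflim : ∀ i, Tendsto (fun k => f k i) atTop
        (𝓝 ((Fin.cons x0 (Fin.cons (z j) q0) : Fin (r + 2) → V n) i)) := by
      intro i
      rw [hf]
      refine Fin.cases ?_ (fun i => Fin.cases ?_ (fun l => ?_) i) i
      · simpa using hx
      · simp only [Fin.cons_succ, Fin.cons_zero]
        exact tendsto_const_nhds
      · simp only [Fin.cons_succ]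
        have hqn0 : 0 < ‖q0 l‖ := norm_pos_iff.2 (hq0ne l)
        have h3 := (hqlim l).const_smul (‖q0 l‖ / ‖x0‖)
        rw [smul_smul, div_mul_div_cancel₀ hx0n.ne', div_self hqn0.ne', one_smul] at h3
        exact h3
    have hfmem : ∀ k i, f k i ∈ Es C F p j (Function.update z p (x k)) := by
      intro k i
      rw [hf]
      refine Fin.cases ?_ (fun i => Fin.cases ?_ (fun l => ?_) i) i
      · simp only [Fin.cons_zero]
        exact es_self hSL hFz hj (hRF _ (hOSk k).1)
      · simp only [Fin.cons_succ, Fin.cons_zero]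
        exact es_j hj
      · simp only [Fin.cons_succ]
        exact Submodule.smul_mem _ _ (Submodule.subset_span (Or.inr (hq k l).1))
    obtain ⟨u, hu0⟩ : ∃ u : V n, u = ∑ i, a i • (Fin.cons x0 (Fin.cons (z j) q0) :
        Fin (r + 2) → V n) i := ⟨_, rfl⟩
    rw [← hu0] at h1 h2 ⊢
    obtain ⟨uk, huk⟩ : ∃ uk : ℕ → V n, uk = fun k => ∑ i, a i • f k i := ⟨_, rfl⟩
    have hut : Tendsto uk atTop (𝓝 u) := by
      rw [huk, hu0]
      exact tendsto_finsetSum _ fun i _ => (hflim i).const_smul (a i)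
    have hukm : ∀ k, uk k ∈ Es C F p j (Function.update z p (x k)) := by
      intro k
      rw [huk]
      exact Submodule.sum_mem _ fun i _ => Submodule.smul_mem _ _ (hfmem k i)
    have hfC : x0 + z j + Real.exp (-T) • fS z {p, j}ᶜ ∈ C := comb_mem hSL hj (hRF _ hRc0) T
    have hR'cl : Real.exp (-T) • fS z {p, j}ᶜ ∈ closure C := hC.cl_smul hRcl (Real.exp_pos _).le
    unfold Zs at hZk
    generalize Real.exp (-T) • fS z {p, j}ᶜ = R at h1 h2 hfC hR'cl hZk
    have hycl : x0 + z j ∈ closure C := hC.cl_add (upd_cl hSL (hRF _ hRc0)) (hzcl j)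
    have hxj : Tendsto (fun k => x k + z j) atTop (𝓝 (x0 + z j)) := hx.add_const _
    refine cl_of_eps (f := (1 + ε) • (x0 + z j)) fun η hη => ?_
    have hη1 : 0 < (1 + η)⁻¹ := by positivity
    have hη2 : (1 + η) ≠ 0 := by positivity
    have hvt : Tendsto (fun k => (1 + η)⁻¹ • (uk k + η • (x k + z j))) atTop
        (𝓝 ((1 + η)⁻¹ • (u + η • (x0 + z j)))) :=
      (hut.add (hxj.const_smul η)).const_smul ((1 + η)⁻¹)
    have hA : (1 + η)⁻¹ • (u + η • (x0 + z j)) + R ∈ C := by
      have h7 : (1 + η)⁻¹ • (u + η • (x0 + z j)) + R =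
          (1 + η)⁻¹ • ((u + R) + η • (x0 + z j + R)) := by
        have h8 : R = (1 + η)⁻¹ • ((1 + η) • R) := by
          rw [smul_smul, inv_mul_cancel₀ hη2, one_smul]
        conv_lhs => rw [h8]
        rw [← smul_add]
        congr 1
        module
      rw [h7]
      exact hC.smul _ (hC.cl_add' h1 (hC.smul _ hfC η hη)) _ hη1
    have hB : N • (x0 + z j + R) - (1 + η)⁻¹ • (u + η • (x0 + z j)) ∈ C := by
      have h7 : N • (x0 + z j + R) - (1 + η)⁻¹ • (u + η • (x0 + z j)) =
          (1 + η)⁻¹ • ((N • (x0 + z j + R) - u) + ((N - 1) * η) • (x0 + z j + R) + η • R) := by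
        have h8 : N • (x0 + z j + R) = (1 + η)⁻¹ • ((1 + η) • (N • (x0 + z j + R))) := by
          rw [smul_smul, inv_mul_cancel₀ hη2, one_smul]
        conv_lhs => rw [h8]
        rw [← smul_sub]
        congr 1
        module
      rw [h7]
      exact hC.smul _ (hC.add_cl (hC.cl_add' h2 (hC.smul _ hfC _ (mul_pos (by linarith) hη)))
        (hC.cl_smul hR'cl hη.le)) _ hη1
    have hAm : ∀ᶠ k in atTop, (1 + η)⁻¹ • (uk k + η • (x k + z j)) + R ∈ C :=
      (hvt.add_const R).eventually (hC.isOpen.mem_nhds hA)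
    have hBt : Tendsto (fun k => N • (x k + z j + R) -
        (1 + η)⁻¹ • (uk k + η • (x k + z j))) atTop
        (𝓝 (N • (x0 + z j + R) - (1 + η)⁻¹ • (u + η • (x0 + z j)))) :=
      ((hxj.add_const R).const_smul N).sub hvt
    have hBm : ∀ᶠ k in atTop, N • (x k + z j + R) -
        (1 + η)⁻¹ • (uk k + η • (x k + z j)) ∈ C :=
      hBt.eventually (hC.isOpen.mem_nhds hB)
    have hcm : ∀ᶠ k in atTop, (1 + η)⁻¹ • (uk k + η • (x k + z j)) +
        ε • (x k + z j) ∈ closure C := by
      filter_upwards [hAm, hBm] with k ha hb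
      refine hZk k _ (Submodule.smul_mem _ _ (Submodule.add_mem _ (hukm k)
        (Submodule.smul_mem _ _ (Submodule.add_mem _
          (es_self hSL hFz hj (hRF _ (hOSk k).1)) (es_j hj)))))
        (subset_closure ha) (subset_closure hb)
    have hlimc : (1 + η)⁻¹ • (u + η • (x0 + z j)) + ε • (x0 + z j) ∈ closure C :=
      isClosed_closure.mem_of_tendsto (hvt.add (hxj.const_smul ε)) hcm
    have h8 : u + ε • (x0 + z j) + η • ((1 + ε) • (x0 + z j)) =
        (1 + η) • ((1 + η)⁻¹ • (u + η • (x0 + z j)) + ε • (x0 + z j)) := by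
      rw [smul_add (1 + η) ((1 + η)⁻¹ • (u + η • (x0 + z j))), smul_smul (1 + η) (1 + η)⁻¹,
        mul_inv_cancel₀ hη2, one_smul]
      module
    rw [h8]
    exact hC.cl_smul hlimc (by positivity)
  · -- (2)
    intro ε N x hε hOS
    by_contra hcon
    push Not at hcon
    unfold Zs at hcon
    push Not at hcon
    choose u hu h1 h2 h3 using hcon
    have hFx := hRF x hOS.1
    have hunit := es_unit hSL hFz hj hFx
    have he : Tendsto (fun k : ℕ => Real.exp (-(k : ℝ))) atTop (𝓝 0) :=
      Real.tendsto_exp_neg_atTop_nhds_zero.comp tendsto_natCast_atTop_atTop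
    have heR : Tendsto (fun k : ℕ => Real.exp (-(k : ℝ)) • fS z {p, j}ᶜ) atTop (𝓝 0) := by
      have h4 := he.smul_const (fS z {p, j}ᶜ)
      rwa [zero_smul] at h4
    have hq : Tendsto (fun k : ℕ => N • (x + z j + Real.exp (-(k : ℝ)) • fS z {p, j}ᶜ) +
        Real.exp (-(k : ℝ)) • fS z {p, j}ᶜ) atTop (𝓝 (N • (x + z j + 0) + 0)) :=
      ((heR.const_add (x + z j)).const_smul N).add heR
    obtain ⟨a, φ, hφ, ha⟩ := subseq hC hq h1 (fun k => by
      have h4 : N • (x + z j + Real.exp (-(k : ℝ)) • fS z {p, j}ᶜ) +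
          Real.exp (-(k : ℝ)) • fS z {p, j}ᶜ - (u k + Real.exp (-(k : ℝ)) • fS z {p, j}ᶜ) =
          N • (x + z j + Real.exp (-(k : ℝ)) • fS z {p, j}ᶜ) - u k := by abel
      rw [h4]; exact h2 k)
    have hacl : a ∈ closure C :=
      isClosed_closure.mem_of_tendsto ha (Eventually.of_forall fun k => h1 (φ k))
    have hua : Tendsto (fun k => u (φ k)) atTop (𝓝 a) := by
      have h4 := ha.sub (heR.comp hφ.tendsto_atTop)
      rw [sub_zero] at h4
      refine h4.congr fun k => ?_
      simp only [Function.comp]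
      abel
    have haE : a ∈ Es C F p j (Function.update z p x) :=
      (Submodule.closed_of_finiteDimensional _).mem_of_tendsto hua
        (Eventually.of_forall fun k => hu (φ k))
    have hd : Tendsto (fun k => ε⁻¹ • (u (φ k) - a)) atTop (𝓝 0) := by
      have h4 := (hua.sub_const a).const_smul ε⁻¹
      rwa [sub_self, smul_zero] at h4
    obtain ⟨k, hk⟩ := (uop n C hC _ _ hunit _ (fun k => Submodule.smul_mem _ _
      (Submodule.sub_mem _ (hu (φ k)) haE)) hd).exists
    refine h3 (φ k) ?_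
    have h5 := hC.cl_add hacl (hC.cl_smul hk hε.le)
    have h6 : a + ε • (x + z j + ε⁻¹ • (u (φ k) - a)) = u (φ k) + ε • (x + z j) := by
      rw [smul_add, smul_smul, mul_inv_cancel₀ hε.ne', one_smul]
      abel
    rwa [h6] at h5
  · -- (3)
    intro ε N T T' x hTT hN hOS hZ u hu h1 h2
    have he : 0 ≤ Real.exp (-T) - Real.exp (-T') :=
      sub_nonneg.2 (Real.exp_le_exp.2 (by linarith))
    refine hZ u hu ?_ ?_
    · have h3 := hC.cl_add h1 (hC.cl_smul hRcl he)
      have h4 : u + Real.exp (-T') • fS z {p, j}ᶜ +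
          (Real.exp (-T) - Real.exp (-T')) • fS z {p, j}ᶜ =
          u + Real.exp (-T) • fS z {p, j}ᶜ := by module
      rwa [h4] at h3
    · have h3 := hC.cl_add h2 (hC.cl_smul (hC.cl_smul hRcl he) hN)
      have h4 : N • (x + z j + Real.exp (-T') • fS z {p, j}ᶜ) - u +
          N • ((Real.exp (-T) - Real.exp (-T')) • fS z {p, j}ᶜ) =
          N • (x + z j + Real.exp (-T) • fS z {p, j}ᶜ) - u := by module
      rwa [h4] at h3
  · -- (4)
    intro x q hSq hy
    have h1 : ∀ l, ∃ M : ℝ, 0 < M ∧ M • (x + z j) - q l ∈ closure C := by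
      intro l
      obtain ⟨M, hM, hM1⟩ := (hSq l).1.2
      rw [Function.update_self, Function.update_of_ne hj] at hM1
      exact ⟨M, hM, hM1⟩
    choose M hM hM1 using h1
    obtain ⟨N, hN⟩ := exists_nat_ge (∑ l, M l)
    refine ⟨N, fun l => ?_⟩
    have h2 : M l ≤ N := (Finset.single_le_sum (fun i _ => (hM i).le)
      (Finset.mem_univ l)).trans hN
    have h3 := hC.cl_add (hM1 l) (hC.cl_smul hy (sub_nonneg.2 h2))
    have h4 : M l • (x + z j) - q l + ((N : ℝ) - M l) • (x + z j) =
        (N : ℝ) • (x + z j) - q l := by module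
    rwa [h4] at h3

end Pool.Agent.VMX.H45
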