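import Pool.Agent.VMX.StmtsB
import Pool.Agent.Helper45_VMX.ZSC

/-!
# Squad VMX, row BRE (helper45): existence of a Baire point
-/

set_option autoImplicit false

open Matrix Filter Topology

namespace Pool.Agent.VMX.H45

open Pool.Agent.PFS Pool.Agent.PFJ Pool.Agent.NBT Pool.Agent.VMX

/-- Row BRE of `Pool/Agent/VMX/StmtsB.lean`. -/
theorem bre (fmc : FmcStmt) (aln : AlnStmt) (sqr : SqrStmt) (sqn : SqnStmt) (rcc : RccStmt)
    (oso : OsoStmt) (zsc : ZscStmt) : BreStmt := by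
  classical
  intro n C Γ Γ₀ K p J c F hSL j r z h hj hjJ hBs
  have hC : PCone C := hSL.cc.toPCone
  have hFz := hBs.fz
  have hRF : ∀ x, Rc C F p J z x → F (Function.update z p x) := fun x hx =>
    ((aln n C Γ Γ₀ K p J c F hSL z hFz x).1 hx).1
  have hzcl : ∀ i, z i ∈ closure C := fun i => (hSL.toFAM.pes _ hFz).1.cl i
  have hRcl : fS z {p, j}ᶜ ∈ closure C := fS_cl hC hzcl _
  obtain ⟨-, hO2, hO3⟩ := oso n C Γ Γ₀ K p J c F hSL j r z h hj hjJ hBs
  obtain ⟨hZ1, hZ2, -, hZ4⟩ := zsc n C Γ Γ₀ K p J c F hSL j r z h hj hjJ hBs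
  -- the sum of `z[x]`
  have hsum : ∀ x : V n, ∑ i, Function.update z p x i = x + fS z {p}ᶜ := by
    intro x
    rw [← Finset.sum_add_sum_compl ({p} : Finset (Fin K)), Finset.sum_singleton,
      Function.update_self]
    unfold fS
    congr 1
    refine Finset.sum_congr rfl fun i hi => ?_
    rw [Finset.mem_compl, Finset.mem_singleton] at hi
    rw [Function.update_of_ne hi]
  have hRU : ∀ x, Rc C F p J z x → x + fS z {p}ᶜ ∈ C := fun x hx => by
    rw [← hsum]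
    exact (hSL.toFAM.pes _ (hRF x hx)).1.sum_mem
  -- the normalised transports
  have hex : ∀ (x : V n) (hx : Rc C F p J z x) (l : Fin r), ∃ q : V n,
      Sq C F p J j z (h l) x q ∧ ‖q‖ = ‖x‖ := by
    intro x hx l
    obtain ⟨hs1, -, hs3⟩ := sqr n C Γ Γ₀ K p J c F hSL z hFz j hj hjJ (h l) (hBs.tm l) x hx
    obtain ⟨q, hq⟩ := hs1
    have hqne : q ≠ 0 := by
      have h3 := hq.1.1
      rw [Function.update_idem] at h3
      exact upd_ne hSL h3
    have hqn : 0 < ‖q‖ := norm_pos_iff.2 hqne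
    have hxn : 0 < ‖x‖ := norm_pos_iff.2 (upd_ne hSL (hRF _ hx))
    refine ⟨(‖x‖ / ‖q‖) • q, hs3 q _ (div_pos hxn hqn) hq, ?_⟩
    rw [norm_smul, Real.norm_of_nonneg (div_pos hxn hqn).le, div_mul_cancel₀ _ hqn.ne']
  choose q hq hqn using hex
  have hqc : ∀ (x : ℕ → V n) (x0 : V n) (hx : ∀ k, Rc C F p J z (x k)) (hx0 : Rc C F p J z x0),
      Tendsto x atTop (𝓝 x0) → ∀ l, Tendsto (fun k => q (x k) (hx k) l) atTop
        (𝓝 (q x0 hx0 l)) := by
    intro x x0 hx hx0 hlim l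
    exact sqn n C Γ Γ₀ K p J c F hSL z hFz j hj hjJ (h l) (hBs.tm l) x _ x0 _ hx hx0
      (fun k => hq (x k) (hx k) l) (hq x0 hx0 l) hlim (fun k => hqn (x k) (hx k) l)
      (hqn x0 hx0 l)
  -- local closedness
  have hloc : IsLocallyClosed {x : V n | OS C F p J j z h x} := by
    refine ⟨{x : V n | x + fS z {p}ᶜ ∈ C} \ closure ({x | Rc C F p J z x} \
      {x | OS C F p J j z h x}), closure {x | Rc C F p J z x}, ?_, isClosed_closure, ?_⟩
    · exact (hC.isOpen.preimage (continuous_id.add continuous_const)).sdiff isClosed_closure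
    · ext x
      constructor
      · intro hx
        have hxR : Rc C F p J z x := hx.1
        refine ⟨⟨hRU x hxR, fun hcl => ?_⟩, subset_closure hxR⟩
        obtain ⟨y, hy, hyx⟩ := mem_closure_iff_seq_limit.1 hcl
        obtain ⟨k, hk⟩ := (hO2 y x hx (fun k => (hy k).1) hyx).exists
        exact (hy k).2 hk
      · rintro ⟨⟨hxU, hxn⟩, hxc⟩
        obtain ⟨y, hy, hyx⟩ := mem_closure_iff_seq_limit.1 hxc
        have hxR : Rc C F p J z x := rcc n C Γ Γ₀ K p J c F hSL z hFz y x hy hyx hxU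
        by_contra hxO
        exact hxn (subset_closure ⟨hxR, hxO⟩)
  obtain ⟨Ω, hΩ⟩ : ∃ Ω : Set (V n), Ω = {x : V n | OS C F p J j z h x} := ⟨_, rfl⟩
  rw [← hΩ] at hloc
  have : LocallyCompactSpace Ω := hloc.locallyCompactSpace
  have hΩm : ∀ x, x ∈ Ω ↔ OS C F p J j z h x := fun x => by rw [hΩ]; rfl
  have hΩO : ∀ x : Ω, OS C F p J j z h x.1 := fun x => (hΩm x.1).1 x.2
  have hΩR : ∀ x : Ω, Rc C F p J z x.1 := fun x => (hΩO x).1
  -- the closed sets
  obtain ⟨A, hA⟩ : ∃ A : ℕ → ℕ → Set Ω, A = fun (i T : ℕ) =>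
      {x : Ω | Zs C F p j (1 / ((i : ℝ) + 1)) ((i : ℝ) + 2) (T : ℝ) z x.1} := ⟨_, rfl⟩
  have hAc : ∀ i T, IsClosed (A i T) := by
    intro i T
    refine IsSeqClosed.isClosed fun x x0 hx hx0 => ?_
    rw [hA] at hx ⊢
    exact hZ1 _ _ _ (fun k => (x k).1) x0.1 (by positivity)
      (by have := Nat.cast_nonneg (α := ℝ) i; linarith) (hΩO x0) (fun k => hΩO (x k))
      ((continuous_subtype_val.tendsto x0).comp hx0) hx
  have hAU : ∀ i, ⋃ T, A i T = Set.univ := by
    intro i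
    refine Set.eq_univ_of_forall fun x => ?_
    obtain ⟨T, hT⟩ := hZ2 (1 / ((i : ℝ) + 1)) ((i : ℝ) + 2) x.1 (by positivity) (hΩO x)
    rw [hA]
    exact Set.mem_iUnion.2 ⟨T, hT⟩
  obtain ⟨B, hB⟩ : ∃ B : ℕ → Set Ω, B = fun (M : ℕ) =>
      {x : Ω | ∀ l, (M : ℝ) • (x.1 + z j) - q x.1 (hΩR x) l ∈ closure C} := ⟨_, rfl⟩
  have hBc : ∀ M, IsClosed (B M) := by
    intro M
    refine IsSeqClosed.isClosed fun x x0 hx hx0 => ?_
    rw [hB] at hx ⊢
    intro l
    have hx1 : Tendsto (fun k => (x k).1) atTop (𝓝 x0.1) :=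
      (continuous_subtype_val.tendsto x0).comp hx0
    exact isClosed_closure.mem_of_tendsto (((hx1.add_const (z j)).const_smul (M : ℝ)).sub
      (hqc (fun k => (x k).1) x0.1 (fun k => hΩR (x k)) (hΩR x0) hx1 l))
      (Eventually.of_forall fun k => hx k l)
  have hBU : ⋃ M, B M = Set.univ := by
    refine Set.eq_univ_of_forall fun x => ?_
    obtain ⟨M, hM⟩ := hZ4 x.1 (q x.1 (hΩR x)) (hq x.1 (hΩR x))
      (hC.cl_add (upd_cl hSL (hRF _ (hΩR x))) (hzcl j))
    rw [hB]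
    exact Set.mem_iUnion.2 ⟨M, hM⟩
  -- the Baire point
  have hD1 : Dense (⋂ i, ⋃ T, interior (A i T)) :=
    dense_iInter_of_isOpen (fun i => isOpen_iUnion fun T => isOpen_interior)
      fun i => dense_iUnion_interior_of_closed (hAc i) (hAU i)
  have hD2 : Dense (⋃ M, interior (B M)) := dense_iUnion_interior_of_closed hBc hBU
  have hD : Dense ((⋃ M, interior (B M)) ∩ ⋂ i, ⋃ T, interior (A i T)) :=
    hD2.inter_of_isOpen_left hD1 (isOpen_iUnion fun M => isOpen_interior)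
  have : Nonempty Ω := ⟨⟨z p, (hΩm _).2 hO3⟩⟩
  obtain ⟨x0, hx0B, hx0A⟩ := hD.nonempty
  obtain ⟨M, hM⟩ := Set.mem_iUnion.1 hx0B
  rw [Set.mem_iInter] at hx0A
  have hx0R := hΩR x0
  -- eventually in the interior of a set
  have hev : ∀ (S : Set Ω), x0 ∈ interior S → ∀ x : ℕ → V n, (∀ k, Rc C F p J z (x k)) →
      Tendsto x atTop (𝓝 x0.1) → ∀ᶠ k in atTop, ∃ hk : x k ∈ Ω, (⟨x k, hk⟩ : Ω) ∈ S := by
    intro S hS x hx hlim
    obtain ⟨O, hO, hOS⟩ := isOpen_induced_iff.1 (isOpen_interior (s := S))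
    have h1 : x0.1 ∈ O := by
      have h2 : x0 ∈ Subtype.val ⁻¹' O := by rw [hOS]; exact hS
      exact h2
    filter_upwards [hlim.eventually (hO.mem_nhds h1), hO2 x x0.1 (hΩO x0) hx hlim] with k ha hb
    have hk : x k ∈ Ω := (hΩm _).2 hb
    refine ⟨hk, interior_subset (s := S) ?_⟩
    rw [← hOS]
    exact ha
  -- transfer of reachability
  have hpes := hSL.toFAM.pes _ hFz
  have hF0 := hRF _ hx0R
  have hDm0 : Dm C x0.1 (fS z (insert p J)) :=
    ((aln n C Γ Γ₀ K p J c F hSL z hFz x0.1).1 hx0R).2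
  have htr : ∀ x, Rc C F p J (Function.update z p x0.1) x → Rc C F p J z x := by
    intro x hx
    obtain ⟨h1, h2⟩ := (aln n C Γ Γ₀ K p J c F hSL _ hF0 x).1 hx
    rw [Function.update_idem] at h1
    refine (aln n C Γ Γ₀ K p J c F hSL z hFz x).2 ⟨h1, ?_⟩
    exact (fmc n C Γ hSL.cc K hSL.three hSL.maxc z p hpes).2.2.2.1 x0.1 x (insert p J)
      (Finset.mem_insert_self _ _) hDm0 h2
  have hzj' : Function.update z p x0.1 j = z j := Function.update_of_ne hj _ _
  have hzp' : Function.update z p x0.1 p = x0.1 := Function.update_self _ _ _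
  have hfS' : fS (Function.update z p x0.1) {p, j}ᶜ = fS z {p, j}ᶜ := by
    unfold fS
    refine Finset.sum_congr rfl fun i hi => ?_
    rw [Finset.mem_compl] at hi
    have hip : i ≠ p := by
      rintro rfl
      exact hi (Finset.mem_insert_self _ _)
    rw [Function.update_of_ne hip]
  refine ⟨Function.update z p x0.1, q x0.1 hx0R, M, ⟨⟨hF0, fun l => (hq x0.1 hx0R l).1, ?_,
    hBs.mx⟩, ?_, ?_⟩⟩
  · -- linear independence
    obtain ⟨-, q', hq', hLI⟩ := hΩO x0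
    have h1 : ∀ l, ∃ a : ℝ, 0 < a ∧ q x0.1 hx0R l = a • q' l := fun l =>
      (sqr n C Γ Γ₀ K p J c F hSL z hFz j hj hjJ (h l) (hBs.tm l) x0.1 hx0R).2.1 _ _
        (hq' l) (hq x0.1 hx0R l)
    choose a ha ha1 using h1
    rw [hzp', hzj']
    have h2 := hLI.units_smul (Fin.cons 1 (Fin.cons 1 fun l => Units.mk0 (a l) (ha l).ne'))
    have h3 : ((Fin.cons 1 (Fin.cons 1 fun l => Units.mk0 (a l) (ha l).ne') :
        Fin (r + 2) → ℝˣ) • (Fin.cons x0.1 (Fin.cons (z j) q') : Fin (r + 2) → V n)) =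
        (Fin.cons x0.1 (Fin.cons (z j) (q x0.1 hx0R)) : Fin (r + 2) → V n) := by
      funext i
      refine Fin.cases ?_ (fun i => Fin.cases ?_ (fun l => ?_) i) i
      · simp
      · simp
      · simp only [Pi.smul_apply', Fin.cons_succ]
        rw [ha1 l]
        rfl
    rw [h3] at h2
    exact h2
  · -- tp
    intro x hx hlim
    rw [hzp'] at hlim
    have hxR : ∀ k, Rc C F p J z (x k) := fun k => htr _ (hx k)
    refine ⟨fun k l => q (x k) (hxR k) l, fun k l => ?_, fun l => hqc x x0.1 hxR hx0R hlim l, ?_⟩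
    · rw [Function.update_idem]
      exact (hq (x k) (hxR k) l).1
    · filter_upwards [hev _ hM x hxR hlim] with k hk l
      obtain ⟨hk1, hk2⟩ := hk
      rw [hB] at hk2
      rw [hzj']
      exact hk2 l
  · -- bx
    intro ε hε N
    obtain ⟨i, hi⟩ := exists_nat_ge (max (1 / ε) N)
    have hi1 : 1 / ε ≤ (i : ℝ) := (le_max_left _ _).trans hi
    have hi2 : N ≤ (i : ℝ) := (le_max_right _ _).trans hi
    have hi3 : 1 / ((i : ℝ) + 1) ≤ ε := by
      rw [div_le_iff₀ hε] at hi1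
      rw [div_le_iff₀ (by positivity)]
      nlinarith
    obtain ⟨T, hT⟩ := Set.mem_iUnion.1 (hx0A i)
    refine ⟨T, fun x hx hlim => ?_⟩
    rw [hzp'] at hlim
    have hxR : ∀ k, Rc C F p J z (x k) := fun k => htr _ (hx k)
    filter_upwards [hev _ hT x hxR hlim] with k hk
    obtain ⟨hk1, hk2⟩ := hk
    rw [hA] at hk2
    intro u hu h1 h2
    rw [Function.update_idem] at hu
    rw [hfS'] at h1
    rw [hzj', hfS'] at h2
    rw [hzj']
    have hxz : x k + z j ∈ closure C := hC.cl_add (upd_cl hSL (hRF _ (hxR k))) (hzcl j)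
    have hxf : x k + z j + Real.exp (-(T : ℝ)) • fS z {p, j}ᶜ ∈ closure C :=
      subset_closure (comb_mem hSL hj (hRF _ (hxR k)) T)
    have h3 : u + (1 / ((i : ℝ) + 1)) • (x k + z j) ∈ closure C := by
      refine hk2 u hu h1 ?_
      have h4 := hC.cl_add h2 (hC.cl_smul hxf (show (0 : ℝ) ≤ (i : ℝ) + 2 - N by linarith))
      have h5 : N • (x k + z j + Real.exp (-(T : ℝ)) • fS z {p, j}ᶜ) - u +
          ((i : ℝ) + 2 - N) • (x k + z j + Real.exp (-(T : ℝ)) • fS z {p, j}ᶜ) =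
          ((i : ℝ) + 2) • (x k + z j + Real.exp (-(T : ℝ)) • fS z {p, j}ᶜ) - u := by module
      rwa [h5] at h4
    have h4 := hC.cl_add h3 (hC.cl_smul hxz (sub_nonneg.2 hi3))
    have h5 : u + (1 / ((i : ℝ) + 1)) • (x k + z j) + (ε - 1 / ((i : ℝ) + 1)) • (x k + z j) =
        u + ε • (x k + z j) := by module
    rwa [h5] at h4

end Pool.Agent.VMX.H45
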