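import Pool.Agent.VMX.StmtsC

/-!
# Squad VMX, row TRI (helper45): the triangle of the second case
-/

set_option autoImplicit false

open Matrix Filter Topology

namespace Pool.Agent.VMX.H45

open Pool.Agent.PFS Pool.Agent.PFJ Pool.Agent.NBT Pool.Agent.VMX

/-- Row TRI of `Pool/Agent/VMX/StmtsC.lean`. -/
theorem tri : TriStmt := by
  intro n k C Γ hCC w hw g hg s la lc lb c b hs hlb hbc hca ga gc gb hc hb hcB hbB h1 h2
  have hC : PCone C := hCC.toPCone
  have hul := hCC.hul
  have hwcl : ∀ i, w i ∈ closure C := fun i => hw.1.cl i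
  have hccl : c ∈ closure C := hul.lamCl c hc
  have hbcl : b ∈ closure C := hul.lamCl b hb
  have hb0 : b ≠ 0 := hul.lamNe b hb
  have hlc : 0 < lc := hlb.trans hbc
  have hla : 0 < la := hlc.trans hca
  have hf'cl : fS w {0}ᶜ ∈ closure C := fS_cl hC hwcl _
  have hf' : fS w {0}ᶜ ∉ C := by
    have h3 := hw.1.bd (fun i => if i = 0 then 0 else 1)
      (fun i => by split_ifs; exacts [le_rfl, zero_le_one]) ⟨0, by simp⟩
    have h4 : ∑ i, (if i = (0 : Fin (k + 1)) then (0 : ℝ) else 1) • w i = fS w {0}ᶜ := by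
      unfold fS
      rw [← Finset.sum_add_sum_compl ({0} : Finset (Fin (k + 1)))]
      rw [Finset.sum_singleton, if_pos rfl, zero_smul, zero_add]
      refine Finset.sum_congr rfl fun i hi => ?_
      rw [Finset.mem_compl, Finset.mem_singleton] at hi
      rw [if_neg hi, one_smul]
    rwa [h4] at h3
  have hcb : c + b ∉ C := by
    intro h3
    obtain ⟨M, hM, h4⟩ := (fcs n C hC _ hf'cl).1.2.2 (c + b) (Submodule.add_mem _ hcB hbB)
    have h5 : M • fS w {0}ᶜ ∈ C := hC.mem_of_le h3 h4
    exact hf' ((hC.smul_iff hM).1 h5)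
  have hwc : w 0 + c ∉ C := by
    intro h3
    obtain ⟨M, hM, h4⟩ := hC.absorb h3 b
    have key : ∀ m : ℕ, M • ((lb / la) ^ m • w 0 + (lb / lc) ^ m • c) - b ∈ closure C := by
      intro m
      induction m with
      | zero =>
        rw [pow_zero, pow_zero, one_smul, one_smul]
        exact subset_closure h4
      | succ m ih =>
        have h5 : s • act g (M • ((lb / la) ^ (m + 1) • w 0 + (lb / lc) ^ (m + 1) • c) - b) =
            lb • (M • ((lb / la) ^ m • w 0 + (lb / lc) ^ m • c) - b) := by
          have e1 : s • act g (M • ((lb / la) ^ (m + 1) • w 0 + (lb / lc) ^ (m + 1) • c) - b) =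
              M • ((lb / la) ^ (m + 1) • (s • act g (w 0)) +
                (lb / lc) ^ (m + 1) • (s • act g c)) - s • act g b := by
            rw [CC.act_sub, CC.act_smul, CC.act_add, CC.act_smul, CC.act_smul]
            module
          rw [e1, ga, gc, gb, pow_succ, pow_succ]
          have e2 : (lb / la) ^ m * (lb / la) * la = lb * (lb / la) ^ m := by
            field_simp
          have e3 : (lb / lc) ^ m * (lb / lc) * lc = lb * (lb / lc) ^ m := by
            field_simp
          rw [smul_smul, smul_smul, e2, e3]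
          module
        have h6 := hC.cl_smul ih hlb.le
        rw [← h5] at h6
        exact (hCC.sact_cl_iff hg hs).1 h6
    have t1 : Tendsto (fun m : ℕ => (lb / la) ^ m) atTop (𝓝 0) :=
      tendsto_pow_atTop_nhds_zero_of_lt_one (by positivity)
        ((div_lt_one hla).2 (hbc.trans hca))
    have t2 : Tendsto (fun m : ℕ => (lb / lc) ^ m) atTop (𝓝 0) :=
      tendsto_pow_atTop_nhds_zero_of_lt_one (by positivity) ((div_lt_one hlc).2 hbc)
    have t3 : Tendsto (fun m : ℕ => M • ((lb / la) ^ m • w 0 + (lb / lc) ^ m • c) - b) atTop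
        (𝓝 (M • ((0 : ℝ) • w 0 + (0 : ℝ) • c) - b)) :=
      (((t1.smul_const (w 0)).add (t2.smul_const c)).const_smul M).sub_const b
    rw [zero_smul, zero_smul, add_zero, smul_zero, zero_sub] at t3
    exact hb0 (hC.salient b hbcl (isClosed_closure.mem_of_tendsto t3
      (Eventually.of_forall key)))
  refine ⟨Pool.Agent.PFS.H60.crt n C hC (Fin 3) _ ?_ ?_ ?_, ?_⟩
  · intro i
    fin_cases i
    · exact hwcl 0
    · exact hccl
    · exact hbcl
  · rw [Fin.sum_univ_three]
    exact h2
  · intro i
    fin_cases i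
    · have e : (Finset.univ.erase (0 : Fin 3)) = {1, 2} := by decide
      show ∑ j ∈ Finset.univ.erase (0 : Fin 3), ![w 0, c, b] j ∉ C
      rw [e, Finset.sum_pair (by decide)]
      exact hcb
    · have e : (Finset.univ.erase (1 : Fin 3)) = {0, 2} := by decide
      show ∑ j ∈ Finset.univ.erase (1 : Fin 3), ![w 0, c, b] j ∉ C
      rw [e, Finset.sum_pair (by decide)]
      exact h1
    · have e : (Finset.univ.erase (2 : Fin 3)) = {0, 1} := by decide
      show ∑ j ∈ Finset.univ.erase (2 : Fin 3), ![w 0, c, b] j ∉ C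
      rw [e, Finset.sum_pair (by decide)]
      exact hwc
  · intro i
    fin_cases i
    · exact hw.2 0
    · exact hc
    · exact hb

end Pool.Agent.VMX.H45
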